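import Pool.Agent.H464Z.RatMain

/-!
The uniform ratios conjecture for the Jacobi symbols of odd squarefree modulus fails on every
line `Re α = -σ` with `0 < σ < 1/4`, unconditionally: at the shifts produced, no `L`-value in a
denominator vanishes, no zeta value is taken at the pole (`Re α < 0 < Re (α + β)`), and both
Euler products converge.
-/

namespace Pool.Agent.Results.MP_291b24_nt.ARatiosFalse

open Pool.Agent.H464Z.Rat

theorem result (σ : ℝ) (h0 : 0 < σ) (h1 : σ < 1 / 4) :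
    ∃ ε : ℝ, 0 < ε ∧ ∀ c : ℝ, 0 < c → ∀ C : ℝ, 0 < C → ∀ K : ℝ,
      ∃ X : ℝ, 2 ≤ X ∧ ∃ α β : ℂ,
        α.re = -σ ∧ c / Real.log X ≤ β.re ∧ β.re < 1 / 4 ∧
        |α.im| ≤ C * X ^ (1 - ε) ∧ |β.im| ≤ C * X ^ (1 - ε) ∧
        0 < (α + β).re ∧
        (∀ n : ℕ, Odd n → Squarefree n → (n : ℝ) ≤ X → L n (1 / 2 + β) ≠ 0) ∧
        Multipliable (Pfac α β) ∧ Multipliable (Pfac (-α) β) ∧
        K * X ^ (1 / 2 + ε) < ‖S X α β - M1 X α β - M2 X α β‖ :=
  main h0 h1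

end Pool.Agent.Results.MP_291b24_nt.ARatiosFalse
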